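import Pool.Agent.Run7.h450.CE.Iface
import Pool.Agent.H726R2.RD.GT

/-!
# Piece CNT of project CE: counting words by the Golden-Thompson inequality
-/

set_option autoImplicit false
set_option linter.unusedSectionVars false

open Filter Topology Matrix RC14 RC14.TRPaux
open scoped ComplexOrder InnerProductSpace

namespace Run7.h980.CE

section Op

variable {V : Type*} [NormedAddCommGroup V] [InnerProductSpace ℂ V] [FiniteDimensional ℂ V]

theorem rtr_add (A B : Module.End ℂ V) : rtr (A + B) = rtr A + rtr B := by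
  unfold rtr
  rw [map_add, Complex.add_re]

theorem rtr_sub (A B : Module.End ℂ V) : rtr (A - B) = rtr A - rtr B := by
  unfold rtr
  rw [map_sub, Complex.sub_re]

theorem rtr_sum {α : Type*} (s : Finset α) (A : α → Module.End ℂ V) :
    rtr (∑ a ∈ s, A a) = ∑ a ∈ s, rtr (A a) := by
  unfold rtr
  rw [map_sum, Complex.re_sum]

theorem rtr_smul (c : ℝ) (A : Module.End ℂ V) : rtr ((c : ℂ) • A) = c * rtr A := by
  unfold rtr
  rw [map_smul, smul_eq_mul, Complex.re_ofReal_mul]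

theorem rtr_one : rtr (1 : Module.End ℂ V) = Module.finrank ℂ V := by
  unfold rtr
  rw [LinearMap.trace_one]
  simp

theorem symm_smul (c : ℝ) {A : Module.End ℂ V} (hA : A.IsSymmetric) :
    ((c : ℂ) • A : Module.End ℂ V).IsSymmetric := by
  intro x y
  rw [LinearMap.smul_apply, LinearMap.smul_apply, inner_smul_left, inner_smul_right,
    Complex.conj_ofReal, hA x y]

theorem pos_sum {α : Type*} [Fintype α] {A : α → Module.End ℂ V} (hA : ∀ a, Pos (A a)) :
    Pos (∑ a, A a) :=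
  LinearMap.isPositive_sum (𝕜 := ℂ) (T := A) Finset.univ fun a _ => hA a

/-- `exp (t μ) ≤ 1 + (exp t - 1) μ` for `0 ≤ μ ≤ 1` -/
theorem exp_chord {t μ : ℝ} (h0 : 0 ≤ μ) (h1 : μ ≤ 1) :
    Real.exp (t * μ) ≤ 1 + (Real.exp t - 1) * μ := by
  have h := convexOn_exp.2 (Set.mem_univ (0 : ℝ)) (Set.mem_univ t) (sub_nonneg.2 h1) h0
    (by ring)
  simp only [smul_eq_mul, mul_zero, zero_add, Real.exp_zero, mul_one] at h
  rw [mul_comm μ t] at h
  linarith

/-- the quadratic form of `exp (t B)` for `0 ≤ B ≤ 1` -/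
theorem ex_chord {t : ℝ} {B : Module.End ℂ V} (hB : Pos B) (h1 : Pos (1 - B)) (v : V) :
    (⟪ex ((t : ℂ) • B) v, v⟫_ℂ).re ≤ ‖v‖ ^ 2 + (Real.exp t - 1) * (⟪B v, v⟫_ℂ).re := by
  obtain ⟨n, b, μ, e1, -⟩ := EXB.diag B hB.1
  have e2 : ∀ i, ex ((t : ℂ) • B) (b i) = ((Real.exp (t * μ i) : ℝ) : ℂ) • b i := by
    intro i
    rw [ex_eig ((t : ℂ) • B) (b i) ((t : ℂ) * (μ i : ℂ))
      (by rw [LinearMap.smul_apply, e1, smul_smul]), Complex.ofReal_exp, Complex.ofReal_mul]
  have hn : ∀ i, ⟪b i, b i⟫_ℂ = 1 := fun i => by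
    rw [inner_self_eq_norm_sq_to_K, b.norm_eq_one]
    simp
  have m0 : ∀ i, 0 ≤ μ i := by
    intro i
    have h := hB.2 (b i)
    rw [e1, inner_smul_left, hn, mul_one, Complex.conj_ofReal, Complex.ofReal_re] at h
    exact h
  have m1 : ∀ i, μ i ≤ 1 := by
    intro i
    have h := h1.2 (b i)
    rw [LinearMap.sub_apply, Module.End.one_apply, e1, inner_sub_left, inner_smul_left, hn, mul_one,
      Complex.conj_ofReal, Complex.sub_re, Complex.one_re, Complex.ofReal_re] at h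
    linarith
  rw [EXB.quad b _ _ e2 v, EXB.quad b _ _ e1 v, ← b.sum_sq_norm_inner_right v, Finset.mul_sum,
    ← Finset.sum_add_distrib]
  refine Finset.sum_le_sum fun i _ => ?_
  have h3 := exp_chord (t := t) (m0 i) (m1 i)
  have h4 : 0 ≤ ‖⟪b i, v⟫_ℂ‖ ^ 2 := by positivity
  nlinarith

theorem pos_sum_le {N : ℕ} {B : Fin N → Module.End ℂ V} (hB : ∀ a, Pos (B a))
    (h1 : Pos (1 - ∑ a, B a)) (a : Fin N) : Pos (1 - B a) := by
  have h2 : (1 - B a : Module.End ℂ V) = (1 - ∑ a, B a) + ∑ c ∈ Finset.univ.erase a, B c := by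
    rw [← Finset.add_sum_erase _ _ (Finset.mem_univ a)]
    abel
  rw [h2]
  refine LinearMap.IsPositive.add h1 ?_
  exact LinearMap.isPositive_sum _ fun c _ => hB c

/-- `∑ exp (t B_a) ≤ N - 1 + exp t` for `0 ≤ B_a`, `∑ B_a ≤ 1` -/
theorem pos_total {N : ℕ} {t : ℝ} (ht : 0 ≤ t) {B : Fin N → Module.End ℂ V} (hB : ∀ a, Pos (B a))
    (h1 : Pos (1 - ∑ a, B a)) :
    Pos ((((N : ℝ) - 1 + Real.exp t : ℝ) : ℂ) • (1 : Module.End ℂ V) -
      ∑ a, ex ((t : ℂ) • B a)) := by
  have hs : (∑ a, ex ((t : ℂ) • B a) : Module.End ℂ V).IsSymmetric := by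
    intro x y
    rw [LinearMap.sum_apply, LinearMap.sum_apply, sum_inner, inner_sum]
    exact Finset.sum_congr rfl fun a _ => ex_symm _ (symm_smul t (hB a).1) x y
  refine ⟨(symm_smul _ (LinearMap.isPositive_one (𝕜 := ℂ) (E := V)).1).sub hs, fun v => ?_⟩
  rw [LinearMap.sub_apply, LinearMap.smul_apply, Module.End.one_apply, inner_sub_left,
    inner_smul_left, Complex.conj_ofReal, Complex.sub_re, Complex.re_ofReal_mul,
    LinearMap.sum_apply, sum_inner, Complex.re_sum]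
  have h2 : ∑ a, (⟪ex ((t : ℂ) • B a) v, v⟫_ℂ).re ≤
      ∑ a, (‖v‖ ^ 2 + (Real.exp t - 1) * (⟪B a v, v⟫_ℂ).re) :=
    Finset.sum_le_sum fun a _ => ex_chord (hB a) (pos_sum_le hB h1 a) v
  rw [Finset.sum_add_distrib, Finset.sum_const, Finset.card_univ, Fintype.card_fin, nsmul_eq_mul,
    ← Finset.mul_sum] at h2
  have h3 := h1.2 v
  rw [LinearMap.sub_apply, Module.End.one_apply, inner_sub_left, Complex.sub_re,
    LinearMap.sum_apply, sum_inner, Complex.re_sum] at h3
  have h4 : (⟪v, v⟫_ℂ).re = ‖v‖ ^ 2 := by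
    rw [inner_self_eq_norm_sq_to_K]
    norm_cast
  rw [h4] at h3 ⊢
  have h5 : 0 ≤ Real.exp t - 1 := by linarith [Real.add_one_le_exp t]
  nlinarith

/-- **The sum over all words.** -/
theorem words (N : ℕ) (t : ℝ) (ht : 0 ≤ t) : ∀ (n : ℕ) (B : Fin n → Fin N → Module.End ℂ V),
    (∀ k a, Pos (B k a)) → (∀ k, Pos (1 - ∑ a, B k a)) →
    ∑ x : Fin n → Fin N, rtr (ex ((t : ℂ) • ∑ k, B k (x k))) ≤
      (Module.finrank ℂ V : ℝ) * ((N : ℝ) - 1 + Real.exp t) ^ n := by
  intro n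
  induction n with
  | zero =>
    intro B _ _
    simp only [Finset.univ_unique, Finset.sum_singleton, Finset.univ_eq_empty, Finset.sum_empty,
      smul_zero, ex_zero, rtr_one, pow_zero, mul_one, le_refl]
  | succ n ih =>
    intro B hB h1
    have hH : ∀ x : Fin n → Fin N, ((t : ℂ) • ∑ k : Fin n, B k.succ (x k) :
        Module.End ℂ V).IsSymmetric := fun x =>
      symm_smul t (pos_sum fun k => hB k.succ (x k)).1
    have e1 : ∑ x : Fin (n + 1) → Fin N, rtr (ex ((t : ℂ) • ∑ k, B k (x k))) =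
        ∑ x : Fin n → Fin N, ∑ a : Fin N,
          rtr (ex ((t : ℂ) • B 0 a + (t : ℂ) • ∑ k : Fin n, B k.succ (x k))) := by
      rw [← (Fin.consEquiv fun _ : Fin (n + 1) => Fin N).sum_comp, Fintype.sum_prod_type_right]
      refine Finset.sum_congr rfl fun x _ => Finset.sum_congr rfl fun a _ => ?_
      rw [Fin.sum_univ_succ, smul_add]
      rfl
    rw [e1, pow_succ]
    have e2 : ∀ x : Fin n → Fin N,
        ∑ a : Fin N, rtr (ex ((t : ℂ) • B 0 a + (t : ℂ) • ∑ k : Fin n, B k.succ (x k))) ≤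
          ((N : ℝ) - 1 + Real.exp t) * rtr (ex ((t : ℂ) • ∑ k : Fin n, B k.succ (x k))) := by
      intro x
      set H : Module.End ℂ V := (t : ℂ) • ∑ k : Fin n, B k.succ (x k) with hHd
      have g1 : ∑ a : Fin N, rtr (ex ((t : ℂ) • B 0 a + H)) ≤
          rtr ((∑ a : Fin N, ex ((t : ℂ) • B 0 a)) * ex H) := by
        rw [Finset.sum_mul, rtr_sum]
        exact Finset.sum_le_sum fun a _ => GT _ _ (symm_smul t (hB 0 a).1) (hH x)
      have g2 := (norm_nonneg _).trans (tr_pos_mul (pos_total ht (hB 0) (h1 0))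
        ⟨ex_symm _ (hH x), ex_pos _ (hH x)⟩)
      rw [← hHd, sub_mul, rtr_sub, smul_mul_assoc, one_mul, rtr_smul] at g2
      linarith
    calc ∑ x : Fin n → Fin N, ∑ a : Fin N,
          rtr (ex ((t : ℂ) • B 0 a + (t : ℂ) • ∑ k : Fin n, B k.succ (x k)))
        ≤ ∑ x : Fin n → Fin N, ((N : ℝ) - 1 + Real.exp t) *
            rtr (ex ((t : ℂ) • ∑ k : Fin n, B k.succ (x k))) := Finset.sum_le_sum fun x _ => e2 x
      _ = ((N : ℝ) - 1 + Real.exp t) * ∑ x : Fin n → Fin N,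
            rtr (ex ((t : ℂ) • ∑ k : Fin n, B k.succ (x k))) := by rw [Finset.mul_sum]
      _ ≤ ((N : ℝ) - 1 + Real.exp t) *
            ((Module.finrank ℂ V : ℝ) * ((N : ℝ) - 1 + Real.exp t) ^ n) := by
          refine mul_le_mul_of_nonneg_left (ih (fun k => B k.succ) (fun k a => hB k.succ a)
            fun k => h1 k.succ) ?_
          have := Real.add_one_le_exp t
          have : (0 : ℝ) ≤ N := Nat.cast_nonneg _
          linarith
      _ = _ := by ring

end Op

/-- **CNT.** -/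
theorem t_CNT : Run7.h450.CE.S_CNT := by
  intro ι _ K _ _ N n b W t l hN hb h1 ht hW
  have lin : ∀ (i : ι) (A : Matrix (K i) (K i) ℂ), A.PosSemidef ↔
      Pos (Matrix.toEuclideanLin A : Module.End ℂ (EuclideanSpace ℂ (K i))) := fun i A =>
    Matrix.isPositive_toEuclideanLin_iff.symm
  have hone : ∀ i, (Matrix.toEuclideanLin (1 : Matrix (K i) (K i) ℂ) :
      Module.End ℂ (EuclideanSpace ℂ (K i))) = 1 := by
    intro i
    ext v j
    simp [Matrix.toEuclideanLin]
  let B : ∀ i, Fin n → Fin N → Module.End ℂ (EuclideanSpace ℂ (K i)) :=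
    fun i k a => Matrix.toEuclideanLin (b k a i)
  have hB : ∀ i k a, Pos (B i k a) := fun i k a => (lin i _).1 (hb k a i)
  have hB1 : ∀ i k, Pos (1 - ∑ a, B i k a) := by
    intro i k
    have h := (lin i _).1 (h1 k i)
    rwa [map_sub, map_sum, hone] at h
  have hsym : ∀ i (x : Fin n → Fin N), (∑ k, B i k (x k)).IsSymmetric := fun i x =>
    (pos_sum fun k => hB i k (x k)).1
  -- one word
  have one : ∀ x ∈ W, Real.exp (t * l) ≤ ∑ i, rtr (ex ((t : ℂ) • ∑ k, B i k (x k))) := by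
    intro x hx
    choose m c μ e1 _ using fun i => EXB.diag (∑ k, B i k (x k)) (hsym i x)
    have e2 : ∀ i j, ex ((t : ℂ) • ∑ k, B i k (x k)) (c i j) =
        ((Real.exp (t * μ i j) : ℝ) : ℂ) • c i j := by
      intro i j
      rw [ex_eig _ (c i j) ((t : ℂ) * (μ i j : ℂ))
        (by rw [LinearMap.smul_apply, e1, smul_smul]), Complex.ofReal_exp, Complex.ofReal_mul]
    have e3 : ∀ i, rtr (ex ((t : ℂ) • ∑ k, B i k (x k))) = ∑ j, Real.exp (t * μ i j) := fun i =>
      EXB.tr_eig (c i) _ _ (e2 i)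
    -- an upper bound of all eigenvalues is an upper bound for `l`
    have e4 : ∀ l' : ℝ, (∀ i j, μ i j ≤ l') → l ≤ l' := by
      intro l' hl'
      refine hW x hx l' fun i => (lin i _).2 ?_
      rw [map_sub, map_smul, hone, map_sum]
      refine ⟨(symm_smul _ (LinearMap.isPositive_one (𝕜 := ℂ)).1).sub (hsym i x), fun v => ?_⟩
      have g1 := EXB.quad (c i) _ _ (e1 i) v
      have g2 : (⟪v, v⟫_ℂ).re = ∑ j, ‖⟪c i j, v⟫_ℂ‖ ^ 2 := by
        rw [(c i).sum_sq_norm_inner_right v, inner_self_eq_norm_sq_to_K]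
        norm_cast
      rw [LinearMap.sub_apply, LinearMap.smul_apply, Module.End.one_apply, inner_sub_left,
        inner_smul_left, Complex.conj_ofReal, Complex.sub_re, Complex.re_ofReal_mul, g2]
      change 0 ≤ _ - (⟪(∑ k, B i k (x k)) v, v⟫_ℂ).re
      rw [g1, Finset.mul_sum, sub_nonneg]
      exact Finset.sum_le_sum fun j _ => mul_le_mul_of_nonneg_right (hl' i j) (by positivity)
    rw [Finset.sum_congr rfl fun i _ => e3 i]
    by_cases hne : Nonempty (Σ i, Fin (m i))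
    · obtain ⟨⟨i0, j0⟩, hmax⟩ := Finite.exists_max fun p : (Σ i, Fin (m i)) => μ p.1 p.2
      have g1 : l ≤ μ i0 j0 := e4 _ fun i j => hmax ⟨i, j⟩
      calc Real.exp (t * l) ≤ Real.exp (t * μ i0 j0) :=
            Real.exp_le_exp.2 (mul_le_mul_of_nonneg_left g1 ht)
        _ ≤ ∑ j, Real.exp (t * μ i0 j) :=
            Finset.single_le_sum (f := fun j => Real.exp (t * μ i0 j))
              (fun j _ => (Real.exp_pos _).le) (Finset.mem_univ j0)
        _ ≤ ∑ i, ∑ j, Real.exp (t * μ i j) :=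
            Finset.single_le_sum (f := fun i => ∑ j, Real.exp (t * μ i j))
              (fun i _ => Finset.sum_nonneg fun j _ => (Real.exp_pos _).le) (Finset.mem_univ i0)
    · have g1 : l ≤ l - 1 := e4 _ fun i j => (hne ⟨⟨i, j⟩⟩).elim
      linarith
  calc (W.card : ℝ) * Real.exp (t * l) = ∑ _x ∈ W, Real.exp (t * l) := by
        rw [Finset.sum_const, nsmul_eq_mul]
    _ ≤ ∑ x ∈ W, ∑ i, rtr (ex ((t : ℂ) • ∑ k, B i k (x k))) := Finset.sum_le_sum one
    _ ≤ ∑ x : Fin n → Fin N, ∑ i, rtr (ex ((t : ℂ) • ∑ k, B i k (x k))) := by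
        refine Finset.sum_le_sum_of_subset_of_nonneg (Finset.subset_univ _) fun x _ _ =>
          Finset.sum_nonneg fun i _ => ?_
        obtain ⟨m, c, μ, -, e2⟩ := EXB.diag ((t : ℂ) • ∑ k, B i k (x k)) (symm_smul t (hsym i x))
        rw [EXB.tr_eig c _ _ e2]
        exact Finset.sum_nonneg fun j _ => (Real.exp_pos _).le
    _ = ∑ i, ∑ x : Fin n → Fin N, rtr (ex ((t : ℂ) • ∑ k, B i k (x k))) := Finset.sum_comm
    _ ≤ ∑ i, (Fintype.card (K i) : ℝ) * ((N : ℝ) - 1 + Real.exp t) ^ n := by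
        refine Finset.sum_le_sum fun i _ => ?_
        have h := words N t ht n (B i) (hB i) (hB1 i)
        rwa [finrank_euclideanSpace] at h
    _ = _ := by
        rw [← Finset.sum_mul]
        push_cast
        rfl

end Run7.h980.CE
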